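import Pool.Agent.Confl.O.MainO

/-!
# Outerconfluent graphs: a class in which the local condition and one pattern on six points
characterise the orders of the drawings
-/

set_option autoImplicit false

namespace Pool.Agent.Results.MP_5f8c52_lc.PatternCriterion

open Pool.Agent.Confl

/-- `PatX G x v`: the distinct vertices `v 0, …, v 5` appear in this cyclic order, in one of the two
directions, in the order given by `x`, the pairs `13`, `04`, `25` are edges, the pairs `03`, `14`,
`15`, `24` are not. `PatP G x v`: they appear in this cyclic order, `v 1` and `v 2` are not
adjacent, both are adjacent to the other four, and these induce the path `v 4, v 3, v 0, v 5`.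
For finite graphs with no induced `K₅` minus an edge (`NoK5e`), octahedron (`OctFree`), complement
of two disjoint paths on three vertices (`CoFree`) and orders without `PatP`, the orders of the
vertices in outerconfluent drawings are exactly the orders with the local property `LC` and without
the pattern `PatX`. -/
theorem result (V : Type) [Finite V] (G : SimpleGraph V) (x : V → ℝ) (hx : Function.Injective x)
    (h1 : NoK5e G) (h2 : OctFree G) (h3 : CoFree G) (h4 : ∀ v, ¬ PatP G x v) :
    OuterconfluentAt G x ↔ LC G x ∧ ∀ v, ¬ PatX G x v :=
  mainO G x hx h1 h2 h3 h4

end Pool.Agent.Results.MP_5f8c52_lc.PatternCriterion
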