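import Pool.Agent.Confl.EarMain

/-!
# The problem with prescribed cyclic order reduces to the recognition of outerconfluent graphs
-/

set_option autoImplicit false

namespace Pool.Agent.Results.MP_5f8c52_lc.PrescribedOrder

open Turing Computability Pool.Agent.Confl

/-- There is a polynomial-time computable map `f` on finite graphs (with vertices `0, …, n-1`) such
that `G` has an outerconfluent drawing in which the vertices appear along the outer face in the
cyclic order `0, 1, …, n-1` if and only if `f G` is outerconfluent. -/
theorem result : ∃ f : GInst → GInst, Nonempty (TM2ComputableInPolyTime enc enc f) ∧
    ∀ I, OuterconfluentNat I.2 ↔ Outerconfluent (f I).2 :=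
  ear_main

end Pool.Agent.Results.MP_5f8c52_lc.PrescribedOrder
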