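import Pool.Agent.Confl.X.MainX

/-!
# Outerconfluent graphs: a forbidden pattern on six points, and a graph with seven vertices which
satisfies the local condition LC in some order but is not outerconfluent
-/

set_option autoImplicit false

namespace Pool.Agent.Results.MP_5f8c52_lc.SixPointPattern

open Pool.Agent.Confl

/-- `PatX G x v`: the distinct vertices `v 0, …, v 5` appear in this cyclic order, in one of the two
directions, in the order given by `x`, the pairs `13`, `04`, `25` are edges, the pairs `03`, `14`,
`15`, `24` are not.
First part: an order in which the pattern `PatX` occurs is not the order of an outerconfluent
drawing. Second part: there is a graph with seven vertices which has an order with the local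
property `LC` but is not outerconfluent; so the existence of an order with `LC`, which is necessary
and can be decided in polynomial time, is not sufficient. -/
theorem result :
    (∀ (V : Type) (G : SimpleGraph V) (x : V → ℝ), Function.Injective x →
      OuterconfluentAt G x → ∀ v, ¬ PatX G x v) ∧
    (∃ G : SimpleGraph (Fin 7), (∃ x : Fin 7 → ℝ, Function.Injective x ∧ LC G x) ∧
      ¬ Outerconfluent G) :=
  mainX

end Pool.Agent.Results.MP_5f8c52_lc.SixPointPattern
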