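import Pool.Agent.Confl.S.MainSQ

/-!
# Outerconfluent graphs: splits, and recognition when all prime induced subgraphs are mild
-/

set_option autoImplicit false

namespace Pool.Agent.Results.MP_5f8c52_lc.SplitMild

open Turing Computability Pool.Agent.Confl

/-- `Mild G`: the common neighbourhood of every triangle is a clique; no two nonadjacent vertices
have an induced path or cycle on four vertices in their common neighbourhood; if `a, b, c, d` form a
`K₄`, `v ≠ c, d` is adjacent to `a, b` and `w ≠ a, b` is adjacent to `c, d` and `v`, then `w` is
adjacent to `a` or `b` or `v` is adjacent to `c` or `d`. In other words: there is no induced `K₅`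
minus an edge, join of two isolated vertices with a path on four vertices, octahedron, or complement
of two disjoint paths on three vertices. `PrimesMild G`: every induced subgraph without a split is
mild.
First part: a polynomial-time computable `f` decides whether a graph has an order of its vertices
with the local property `LC`; every outerconfluent graph has one, and a graph with `PrimesMild` is
outerconfluent iff it has one. Second part: a finite graph is outerconfluent iff its induced
subgraphs without a split are; for a cut whose edges form a complete bipartite graph, represented by
`w` and `z`, it is outerconfluent iff both parts with the representative of the other side are; and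
`PrimesMild` holds if every induced subgraph with at least five vertices has a split. Third part:
for a given order `x`, the property `LC` is necessary for an outerconfluent drawing with this order,
it is sufficient if the graph is mild, and for connected graphs it says that for every vertex `v`
the components of `G - N[v]` are arcs. Fourth part: mild graphs have `PrimesMild`; triangle-free
graphs, diamond-free graphs, and `K₄`-free graphs without induced join of two isolated vertices with
a path or cycle on four vertices are mild. -/
theorem result :
    (∃ f : GInst → Bool, Nonempty (TM2ComputableInPolyTime enc encodeBool f) ∧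
      (∀ I, f I = true ↔ ∃ x : Fin I.1 → ℝ, Function.Injective x ∧ LC I.2 x) ∧
      (∀ I, Outerconfluent I.2 → f I = true) ∧
      (∀ I, PrimesMild I.2 → (f I = true ↔ Outerconfluent I.2))) ∧
    (∀ (V : Type) [Finite V] (G : SimpleGraph V),
      (Outerconfluent G ↔
        ∀ S : Set V, (¬ ∃ A, IsSplit G S A) → Outerconfluent (G.induce S)) ∧
      (∀ (A : Set V) (w z : V), w ∈ A → z ∉ A →
        (∀ a ∈ A, ∀ b ∉ A, (G.Adj a b ↔ G.Adj a z ∧ G.Adj w b)) →
        (Outerconfluent G ↔ Outerconfluent (G.induce (insert z A)) ∧
          Outerconfluent (G.induce (insert w Aᶜ)))) ∧
      ((∀ S : Set V, 5 ≤ S.ncard → ∃ A, IsSplit G S A) → PrimesMild G)) ∧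
    (∀ (V : Type) [Finite V] (G : SimpleGraph V) (x : V → ℝ), Function.Injective x →
      (OuterconfluentAt G x → LC G x) ∧
      (Mild G → (OuterconfluentAt G x ↔ LC G x)) ∧
      (G.Connected → (LC G x ↔ ArcProp G x))) ∧
    (∀ (V : Type) (G : SimpleGraph V), (Mild G → PrimesMild G) ∧ (G.CliqueFree 3 → Mild G) ∧
      ((∀ a b c d, G.Adj a b → G.Adj a c → G.Adj b c → G.Adj a d → G.Adj b d → c ≠ d →
        G.Adj c d) → Mild G) ∧
      (G.CliqueFree 4 → PathFree G → Mild G)) :=
  mainSQ

end Pool.Agent.Results.MP_5f8c52_lc.SplitMild
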